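import Pool.Agent.H14.Xi2

set_option autoImplicit false

namespace Pool.Agent.Results.MP_485030_co.AllBut

/-- For every `n ≥ 1` other than `2, 4, 6` there is a nondegenerate simplex `S` with `S ⊆ [0,1]^n ⊆ nS`. -/
theorem result (n : ℕ) (hn : 0 < n) (h2 : n ≠ 2) (h4 : n ≠ 4) (h6 : n ≠ 6) :
    ∃ v : Fin (n + 1) → (Fin n → ℝ), AffineIndependent ℝ v ∧ (∀ i j, v i j ∈ Set.Icc (0 : ℝ) 1) ∧
      ∀ x : Fin n → ℝ, (∀ j, x j ∈ Set.Icc (0 : ℝ) 1) →
        x ∈ (AffineMap.homothety ((Finset.univ : Finset (Fin (n + 1))).centroid ℝ v) (n : ℝ)) ''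
          convexHull ℝ (Set.range v) :=
  Pool.Agent.H14.Xi.all n hn h2 h4 h6

end Pool.Agent.Results.MP_485030_co.AllBut
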